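import Mathlib

set_option autoImplicit false

namespace Pool.Agent.Results.MP_75e066_al.Counter

structure Hypergroup (H : Type) where
  mul : H → H → Set H
  one : H
  star : H → H
  assoc : ∀ p q r, (⋃ u ∈ mul q r, mul p u) = ⋃ u ∈ mul p q, mul u r
  mul_one : ∀ s, mul s one = {s}
  rev : ∀ p q r, r ∈ mul p q → q ∈ mul (star p) r ∧ p ∈ mul r (star q)

namespace Hypergroup
variable {H : Type} (G : Hypergroup H)

def sm (P Q : Set H) : Set H := ⋃ p ∈ P, ⋃ q ∈ Q, G.mul p q

def Closed (F : Set H) : Prop := F.Nonempty ∧ G.sm (G.star '' F) F ⊆ F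

/-- `F` is normal and strongly normal in `F'`, both closed. -/
def Step (F F' : Set H) : Prop := G.Closed F ∧ G.Closed F' ∧ F ⊆ F' ∧
  ∀ h ∈ F', G.sm F {h} ⊆ G.sm {h} F ∧ G.sm (G.sm {G.star h} F) {h} ⊆ F

def dc (F : Set H) (h : H) : Set H := G.sm (G.sm F {h}) F

def qmul (F : Set H) (a b : H) : Set (Set H) := G.dc F '' G.sm (G.sm {a} F) {b}

def Z : ℕ → Set H
  | 0 => {G.one}
  | n + 1 => {h | (∀ x, G.qmul (Z n) h x = G.qmul (Z n) x h) ∧
      G.qmul (Z n) (G.star h) h = {G.dc (Z n) G.one}}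

lemma mem_sm {P Q : Set H} {r : H} : r ∈ G.sm P Q ↔ ∃ p ∈ P, ∃ q ∈ Q, r ∈ G.mul p q := by
  simp [sm]

end Hypergroup

def tb : ℕ := 195825903296922294710824236496413178728555295961532839692553847790096444513925320909707611238302502412584267055683586586074605427600771971479966300404345846554188414405661832361097591832388539950823268214566664616276551387163797598159180232911645635368476094991946584829463330917139133670568496076637729879277213371415168614272942472221277951811389979209297029444357691840824839505332036377516753198007538608839128790354339571766806317765843810388920344905340213604608716214926708310597774427670287650566811508741090894416337215251220908171401914304914291389398150164771077989575137944927755141377274517210287874616162468259213634558503648581902061824281170458883308348526445284726369731509869253142445795838314997221591973078820021456085298657437811350944808143456748352622823494362518723036257852688434235600323521909904607615017437920828353871348185047730999068117849357806036947935969425605053015838091414281197232373093657596474873430232285064146178824283792309771729806111339300524478156745061213986568807631104176498264548421959245641508610467583238310631540230278490152582076477760018026575622685742365079204607126122228895087190698374596952544489302857647294454814843792883069834625252282426572289007147728258378175204163585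

def mk (p q : ℕ) : ℕ := (tb >>> (p * 256 + q * 16)) % 65536
def m (p q r : Fin 16) : Bool := (mk p q).testBit r
def st : Fin 16 → Fin 16 := ![0, 1, 2, 3, 14, 15, 12, 13, 10, 11, 8, 9, 6, 7, 4, 5]
def U (f : ℕ → ℕ) (S : ℕ) : ℕ → ℕ
  | 0 => 0
  | k + 1 => cond (S.testBit k) (f k) 0 ||| U f S k

lemma U_bit (f : ℕ → ℕ) (S s k : ℕ) :
    (U f S k).testBit s ↔ ∃ u < k, S.testBit u ∧ (f u).testBit s := by
  induction k with
  | zero => simp [U]
  | succ k ih =>
    rw [U, Nat.testBit_or, Bool.or_eq_true, ih, Nat.exists_lt_succ_right, or_comm]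
    cases S.testBit k <;> simp

lemma as1 : ∀ p < 16, ∀ q < 16, ∀ r < 16,
    U (mk p) (mk q r) 16 = U (fun u => mk u r) (mk p q) 16 := by decide +kernel

lemma m_assoc (p q r s : Fin 16) : (∃ u, m q r u ∧ m p u s) ↔ ∃ u, m p q u ∧ m u r s := by
  have h := congrArg (fun z : ℕ => z.testBit s = true) (as1 p p.2 q q.2 r r.2)
  simp only [U_bit, eq_iff_iff] at h
  simpa only [Fin.exists_iff, m, exists_prop] using h

lemma m_one : ∀ s r : Fin 16, (m s 0 r ↔ r = s) ∧ (m 0 s r ↔ r = s) := by decide +kernel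
lemma m_rev : ∀ p q r : Fin 16, m p q r → m (st p) r q ∧ m r (st q) p := by decide +kernel

def G0 : Hypergroup (Fin 16) where
  mul p q := {r | m p q r}
  one := 0
  star := st
  assoc p q r := by ext s; simpa using m_assoc p q r s
  mul_one s := by ext r; exact (m_one s r).1
  rev := m_rev

lemma mem_mul {p q r : Fin 16} : r ∈ G0.mul p q ↔ m p q r = true := Iff.rfl

def pw (x : ℕ) : ℕ → ℕ
  | 0 => 2 ^ x
  | k + 1 => pw x k ||| U (fun u => mk u x) (pw x k) 16

lemma gen : ∀ x < 16, 4 ≤ x → ∀ y < 16, (pw x 8).testBit y := by decide +kernel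
lemma t0 : ∀ p : Fin 16, m (st p) p 0 ∧ m (st p) 0 (st p) ∧ st (st p) = p := by decide +kernel

lemma cl_sub (F : Set (Fin 16)) (hF : G0.Closed F) (x : Fin 16) (hx : x ∈ F) (k : ℕ) :
    ∀ y : Fin 16, (pw x k).testBit y → y ∈ F := by
  have h0 : ∀ p ∈ F, ∀ q ∈ F, ∀ r, m (st p) q r → r ∈ F := fun p hp q hq r h =>
    hF.2 (G0.mem_sm.mpr ⟨_, ⟨p, hp, rfl⟩, q, hq, h⟩)
  induction k with
  | zero =>
    intro y hy
    rw [pw, Nat.testBit_two_pow, decide_eq_true_eq] at hy
    rwa [← Fin.ext hy]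
  | succ k ih =>
    intro y hy
    rw [pw, Nat.testBit_or, Bool.or_eq_true, U_bit] at hy
    rcases hy with h | ⟨u, hu, h1, h2⟩
    · exact ih y h
    · have h3 := ih ⟨u, hu⟩ h1
      refine h0 _ (h0 _ h3 0 (h0 _ h3 _ h3 0 (t0 _).1) _ (t0 _).2.1) x hx y ?_
      rw [(t0 _).2.2]; exact h2

lemma t1 : ∀ p < 4, ∀ q < 4, ∀ r : Fin 16, m (st p) q r → r < 4 := by decide +kernel
lemma t2 : ∀ h < 4, ∀ f < 4, ∀ r : Fin 16, m f h r → m h f r := by decide +kernel
lemma t3 : ∀ h < 4, ∀ f < 4, ∀ u, m (st h) f u → ∀ r, m u h r → r = f := by decide +kernel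
lemma t4 : ∀ h, ∀ f < 4, ∀ r : Fin 16, m f h r → ∃ g, g < 4 ∧ m h g r := by decide +kernel
lemma t5 : ∀ h, ∀ f < 4, ∀ u, m (st h) f u → ∀ r, m u h r → r < 4 := by decide +kernel
lemma t6 : ∀ h : Fin 16, ((∀ x y, m h x y ↔ m x h y) ∧ ∀ y, m (st h) h y ↔ y = 0) ↔ h = 0 := by
  decide +kernel

lemma sm_one (P : Set (Fin 16)) : G0.sm P {0} = P ∧ G0.sm {0} P = P := by
  constructor <;> ext r <;> simp [G0.mem_sm, mem_mul, m_one]

lemma Z_eq (n : ℕ) : G0.Z n = {0} := by
  induction n with
  | zero => rfl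
  | succ n ih =>
    ext h
    have h1 : G0.dc {0} = fun x => {x} := by
      funext x; simp [Hypergroup.dc, sm_one]
    have h2 : ∀ a b, G0.sm (G0.sm {a} {0}) {b} = G0.mul a b := fun a b => by
      rw [(sm_one _).1]; simp [Hypergroup.sm]
    have h3 := (Set.singleton_injective (α := Fin 16)).image_injective
    simp only [Hypergroup.Z, ih, Hypergroup.qmul, h1, h2, Set.mem_setOf_eq,
      Set.mem_singleton_iff, ← t6 h, ← Set.image_singleton (f := fun x : Fin 16 => ({x} : Set _)),
      h3.eq_iff, Set.ext_iff, mem_mul]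
    rfl

theorem result : ∃ (n : ℕ) (G : Hypergroup (Fin n)),
    (∀ F, G.Closed F → Relation.TransGen G.Step F Set.univ) ∧ ∀ k, G.Z k ≠ Set.univ := by
  refine ⟨16, G0, fun F hF => ?_, fun k h => ?_⟩
  · have hU : G0.Closed Set.univ := ⟨Set.univ_nonempty, Set.subset_univ _⟩
    have hT : G0.Closed {x | x < 4} := ⟨⟨0, by decide⟩, fun r hr => by
      obtain ⟨_, ⟨p, hp, rfl⟩, q, hq, h⟩ := G0.mem_sm.mp hr
      exact t1 p hp q hq r h⟩
    have hS : G0.Step {x | x < 4} Set.univ := ⟨hT, hU, Set.subset_univ _, fun h _ => ⟨fun r hr => by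
      obtain ⟨f, hf, _, rfl, h1⟩ := G0.mem_sm.mp hr
      obtain ⟨g, hg, h2⟩ := t4 _ f hf r h1
      exact G0.mem_sm.mpr ⟨_, rfl, g, hg, h2⟩, fun r hr => by
      obtain ⟨u, hu, _, rfl, h1⟩ := G0.mem_sm.mp hr
      obtain ⟨_, rfl, f, hf, h2⟩ := G0.mem_sm.mp hu
      exact t5 _ f hf u h2 r h1⟩⟩
    by_cases hsub : F ⊆ {x | x < 4}
    · refine .head ⟨hF, hT, hsub, fun h hh => ⟨fun r hr => ?_, fun r hr => ?_⟩⟩ (.single hS)
      · obtain ⟨f, hf, _, rfl, h1⟩ := G0.mem_sm.mp hr
        exact G0.mem_sm.mpr ⟨_, rfl, f, hf, t2 _ hh f (hsub hf) r h1⟩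
      · obtain ⟨u, hu, _, rfl, h1⟩ := G0.mem_sm.mp hr
        obtain ⟨_, rfl, f, hf, h2⟩ := G0.mem_sm.mp hu
        rw [t3 _ hh f (hsub hf) u h2 r h1]; exact hf
    · obtain ⟨x, hx, hx4⟩ := Set.not_subset.mp hsub
      have : F = Set.univ := Set.eq_univ_of_forall fun y =>
        cl_sub F hF x hx 8 y (gen x x.2 (show (4 : Fin 16) ≤ x from not_lt.mp hx4) y y.2)
      rw [this]
      refine .single ⟨hU, hU, le_rfl, fun h _ => ⟨fun r _ => ?_, Set.subset_univ _⟩⟩
      have : ∀ h r : Fin 16, ∃ g, m h g r := by decide +kernel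
      obtain ⟨g, hg⟩ := this h r
      exact G0.mem_sm.mpr ⟨_, rfl, g, trivial, hg⟩
  · rw [Z_eq] at h
    have : (1 : Fin 16) ∈ ({0} : Set (Fin 16)) := h ▸ Set.mem_univ _
    exact absurd this (by decide)

end Pool.Agent.Results.MP_75e066_al.Counter
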